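import Pool.Agent.AT8.Asm
import Pool.Agent.Helper11_AT5.Asm5
import Pool.Agent.Helper17_ATZ.ZCP
import Pool.Agent.Helper65_ATZ.CLZ
import Pool.Agent.Helper77_ATZ.UWA
import Pool.Agent.Helper1_AT10.SBE
import Pool.Agent.Helper1_AT10.BLO
import Pool.Agent.Helper1_AT10.FRB
import Pool.Agent.Helper25_AT10.IDL
import Pool.Agent.Helper95_AT10.TV
import Pool.Agent.Helper31_AT10.GRI
import Pool.Agent.Helper69_AT10.GRN
import Pool.Agent.Helper53_AT10.IXP
import Pool.Agent.Helper86_AT10.LCA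
import Pool.Agent.Helper28_AT10.LCS
import Pool.Agent.Helper56_AT10.LF2
import Pool.Agent.Helper69_AT10.LNK
import Pool.Agent.Helper86_AT10.PDC
import Pool.Agent.Helper17_AT10.PRM
import Pool.Agent.Helper92_AT10.PRU
import Pool.Agent.Helper3_AT10.PRX
import Pool.Agent.Helper86_AT10.RTR
import Pool.Agent.Helper76_AT10.SCL
import Pool.Agent.Helper44_AT10.SPS
import Pool.Agent.Helper69_AT10.STF
import Pool.Agent.Helper81_AT10.STR
import Pool.Agent.Helper45_AT10.TVS
import Pool.Agent.Helper17_AT10.UNB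
import Pool.Agent.Helper69_AT10.ZLO
import Pool.Agent.Helper62_AT10.ROS
import Pool.Agent.Helper97_K9.ORB
import Pool.Agent.Helper79_AT10.CHT
import Pool.Agent.Helper79_AT10.FRG
import Pool.Agent.Helper76_AT10.FCZ

/-!
# Squad AT10: assembly of all the rows

`stf_ : StfStmt`: the structure theorem of the STAR block, with no hypotheses.
-/

noncomputable section

namespace Pool.Agent.PP.T10

open Pool.Agent.PP

theorem zcp_ : TB.ZcpStmt := TB.H17.zcp T5.ix5_

theorem clz_ : TB.ClzStmt := TB.H65.clz TB.H77.uwa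

theorem sbe_ : SbeStmt := H1.sbe

theorem blo_ : BloStmt := H1.blo T5.ker_

theorem frg_ : FrgStmt := H79.frg

theorem lf2_ : Lf2Stmt := H56.lf2

theorem tvs_ : TvsStmt := H45.tvs T8.lft_ T8.smi_

theorem fcz_ : FczStmt := H76.fcz

theorem sps_ : SpsStmt := H44.sps tvs_ fcz_ T5.zim_ KF.H25.idm

theorem frb_ : FrbStmt := H1.frb frg_ sps_

theorem idl_ : IdlStmt := H25.idl T8.idp_

theorem tva_ : TvaStmt := H95.tva tvs_ lf2_

theorem tvc_ : TvcStmt := H95.tvc tvs_

theorem fia_ : FiaStmt := H95.fia tva_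

theorem fic_ : FicStmt := H95.fic tvc_

theorem gri_ : GriStmt := H31.gri tvs_ fia_ fic_

theorem grn_ : GrnStmt := H69.grn

theorem ixp_ : IxpStmt := H53.ixp

theorem lca_ : LcaStmt := H86.lca fcz_ T5.zim_

theorem lcs_ : LcsStmt := H28.lcs sbe_ tvs_ lca_ T8.lft_ zcp_

theorem lnk_ : LnkStmt := H69.lnk sbe_ blo_

theorem pdc_ : PdcStmt := H86.pdc

theorem rtr_ : RtrStmt := H86.rtr

theorem pru_ : PruStmt := H92.pru

theorem unb_ : UnbStmt := H17.unb idl_

theorem prx_ : PrxStmt := H3.prx pdc_ unb_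

theorem prm_ : PrmStmt := H17.prm K9.H69.fmg K9.dun_ K9.H97.orb prx_

theorem scl_ : SclStmt := H76.scl

theorem zlo_ : ZloStmt := H69.zlo prx_ pru_ prm_ unb_ scl_

theorem ros_ : RosStmt := H62.ros rtr_ idl_

theorem cht_ : ChtStmt := H79.cht pdc_ fia_ ros_ grn_ gri_

theorem str_ : StrStmt := H81.str sbe_ lcs_ cht_ frb_ lnk_

theorem stf_ : StfStmt := H69.stf clz_ zlo_ str_

end Pool.Agent.PP.T10
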